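import Pool.Agent.ATZ.Stmts1
import Pool.Agent.Helper23_AT5.NZM
import Pool.Agent.Helper23_AT3.RTC

/-!
# Squad ATZ, row NZF: a character fixed by the power map which is not orthogonal, on the regular
elements, to any character of the block, even modulo `M` (after `T5.H23.nzm` of helper23)
-/

open scoped BigOperators

noncomputable section

namespace Pool.Agent.PP.TB.H90

open Pool.Agent.Helper51_AWC Pool.Agent.Helper79_WRA Pool.Agent.PP Pool.Agent.PP.KF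
open Pool.Agent.PP.K9 Pool.Agent.PP.K9.H97 Pool.Agent.PP.H75 Pool.Agent.PP.T3 Pool.Agent.PP.T2
open Pool.Agent.PP.K9.H25 Pool.Agent.PP.T5 Pool.Agent.PP.T5.H23

attribute [local instance] Ideal.Quotient.field

theorem cast_of_modEq {F : Type*} [Field F] {ℓ a b : ℕ} (hc : (ℓ : F) = 0)
    (h : a ≡ b [MOD ℓ]) : (a : F) = b := by
  have e : ∀ n : ℕ, (n : F) = ((n % ℓ : ℕ) : F) := by
    intro n
    conv_lhs => rw [← Nat.mod_add_div n ℓ]
    rw [Nat.cast_add, Nat.cast_mul, hc, zero_mul, add_zero]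
  rw [e a, e b, h]

open Classical in
/-- the points which are not fixed do not contribute to the sum of an invariant function in
characteristic `ℓ` -/
theorem sum_fix {α F : Type*} [Fintype α] [Field F] {ℓ r : ℕ} [Fact ℓ.Prime]
    (hc : (ℓ : F) = 0) (σ : α → α) (hσ : ∀ a, σ^[ℓ ^ r] a = a) (f : α → F)
    (hf : ∀ a, f (σ a) = f a) :
    ∑ a, f a = ∑ a ∈ Finset.univ.filter (fun a => σ a = a), f a := by
  have key : ∀ b : F, ((Finset.univ.filter (fun a => f a = b)).card : F) =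
      (((Finset.univ.filter (fun a => σ a = a)).filter (fun a => f a = b)).card : F) := by
    intro b
    obtain ⟨τ, hτ⟩ : ∃ τ : Function.End {a // f a = b}, ∀ a, (τ a).1 = σ a.1 :=
      ⟨fun a => ⟨σ a.1, by rw [hf]; exact a.2⟩, fun _ => rfl⟩
    have hpow : ∀ (n : ℕ) (a : {a // f a = b}), ((τ ^ n) a).1 = σ^[n] a.1 := by
      intro n
      induction n with
      | zero => intro a; rfl
      | succ n ih =>
        intro a
        rw [pow_succ, Function.iterate_succ_apply, ← hτ]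
        exact ih (τ a)
    have h1 : τ ^ ℓ ^ r = 1 := by
      funext a
      apply Subtype.ext
      rw [hpow, hσ]
      rfl
    have h2 := cast_of_modEq hc (Equiv.Perm.card_fixedPoints_modEq h1)
    rw [Fintype.card_subtype] at h2
    rw [h2]
    congr 1
    rw [Finset.filter_filter, ← Fintype.card_subtype]
    refine Fintype.card_congr ?_
    exact
      { toFun := fun a => ⟨a.1.1, by
          have h3 : τ a.1 = a.1 := a.2
          have h4 := hτ a.1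
          rw [h3] at h4
          exact ⟨h4.symm, a.1.2⟩⟩
        invFun := fun a => ⟨⟨a.1, a.2.2⟩, by
          show τ ⟨a.1, a.2.2⟩ = ⟨a.1, a.2.2⟩
          apply Subtype.ext
          rw [hτ]
          exact a.2.1⟩
        left_inv := fun _ => rfl
        right_inv := fun _ => rfl }
  obtain ⟨T, hT⟩ : ∃ T : Finset F, T = Finset.univ.image f := ⟨_, rfl⟩
  have hT1 : ∀ a, f a ∈ T := fun a => by
    rw [hT]
    exact Finset.mem_image_of_mem f (Finset.mem_univ a)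
  rw [← Finset.sum_fiberwise_of_maps_to (s := Finset.univ) (t := T) (g := f)
    (fun a _ => hT1 a) f, ← Finset.sum_fiberwise_of_maps_to
    (s := Finset.univ.filter (fun a => σ a = a)) (t := T) (g := f) (fun a _ => hT1 a) f]
  refine Finset.sum_congr rfl fun b _ => ?_
  have h3 : ∀ s : Finset α, ∑ a ∈ s.filter (fun a => f a = b), f a =
      ((s.filter (fun a => f a = b)).card : F) * b := by
    intro s
    rw [Finset.sum_congr rfl (fun a ha => (Finset.mem_filter.1 ha).2), Finset.sum_const,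
      nsmul_eq_mul]
  rw [h3, h3, key b]

theorem el_pow {G : Type} [Group G] [Finite G] {ℓ N : ℕ} (hN : N.Coprime (Nat.card G)) (x : G) :
    El ℓ (x ^ N) ↔ El ℓ x := by
  constructor
  · rintro ⟨n, hn⟩
    refine ⟨n, (T3.H23.pow_bij hN).1 ?_⟩
    show (x ^ ℓ ^ n) ^ N = 1 ^ N
    rw [one_pow, ← pow_mul, mul_comm, pow_mul, hn]
  · rintro ⟨n, hn⟩
    refine ⟨n, ?_⟩
    rw [← pow_mul, mul_comm, pow_mul, hn, one_pow]

open Classical in
/-- NZF -/
theorem nzf (sei : SeiStmt) (wbo : K9.WboStmt) (ada : K9.AdaStmt) (idm : KF.IdmStmt) :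
    NzfStmt := by
  intro ℓ _ M _ hM H _ _ N hN b hb
  have := Fintype.ofFinite H
  have hℓ : ℓ.Prime := Fact.out
  have hc : (Fintype.card H : ℂ) ≠ 0 := by exact_mod_cast Fintype.card_ne_zero
  obtain ⟨P⟩ : Nonempty (Sylow ℓ H) := inferInstance
  have hs := (sei ℓ H P).2
  obtain ⟨q, hq⟩ : ∃ q, q = (P : Subgroup H).index := ⟨_, rfl⟩
  rw [← hq] at hs
  have hq1 : ℓ.Coprime q := by
    rw [hq]
    exact (Nat.Prime.coprime_iff_not_dvd hℓ).2 P.not_dvd_index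
  -- the indicator function of the `ℓ`-elements
  obtain ⟨pi, hpi⟩ : ∃ pi : H → ℂ, pi = fun h => if El ℓ h then 1 else 0 := ⟨_, rfl⟩
  obtain ⟨a, ha⟩ : ∃ a : (H → ℂ) → ℂ, a = fun ψ => ipn pi ψ := ⟨_, rfl⟩
  have haR : ∀ ψ ∈ Irr H, a ψ ∈ RM M := by
    intro ψ hψ
    obtain ⟨m, hm⟩ := zi_ipn hs (AddSubgroup.subset_closure hψ : ψ ∈ ZI H)
    have h1 : (q : ℂ) * a ψ = m := by
      rw [← hm, ha, hpi]
      beta_reduce
      rw [ipn_eq, ipn_eq, mul_left_comm, Finset.mul_sum]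
      congr 1
      refine Finset.sum_congr rfl fun x _ => ?_
      by_cases hx : El ℓ x
      · rw [if_pos hx, if_pos hx, one_mul]
      · rw [if_neg hx, if_neg hx, zero_mul, mul_zero]
    exact ⟨(q : integralClosure ℤ ℂ), (m : integralClosure ℤ ℂ), cast_notMem hq1 hM, by
      rw [← map_natCast (algebraMap (integralClosure ℤ ℂ) ℂ), ← map_intCast
        (algebraMap (integralClosure ℤ ℂ) ℂ)] at h1
      exact h1⟩
  obtain ⟨S, hS⟩ : ∃ S : Finset (H → ℂ), S = (irrE_finite M b).toFinset := ⟨_, rfl⟩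
  have hSm : ∀ ψ, ψ ∈ S ↔ ψ ∈ IrrE M b := fun ψ => by rw [hS, Set.Finite.mem_toFinset]
  -- the values at the regular elements
  have hval : ∀ x : H, Reg ℓ x → ∑ ψ ∈ S, a ψ * ψ x⁻¹ = eh M b x := by
    intro x hx
    have h1 : ∀ ψ ∈ S, a ψ * ψ x⁻¹ = ∑ c : H, (Fintype.card H : ℂ)⁻¹ *
        (if El ℓ c then ψ x⁻¹ * ψ c⁻¹ else 0) := by
      intro ψ hψ
      rw [ha, hpi]
      simp only [ipn_eq]
      rw [mul_assoc, Finset.sum_mul, Finset.mul_sum]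
      refine Finset.sum_congr rfl fun c _ => ?_
      congr 1
      by_cases hcl : El ℓ c
      · rw [if_pos hcl, if_pos hcl, one_mul, H94.irr_star ((hSm ψ).1 hψ).1, mul_comm]
      · rw [if_neg hcl, if_neg hcl, zero_mul, zero_mul]
    rw [Finset.sum_congr rfl h1, Finset.sum_comm, Finset.sum_eq_single_of_mem (1 : H)
      (Finset.mem_univ _)]
    · rw [eh_eq, ← hS, Finset.mul_sum]
      refine Finset.sum_congr rfl fun ψ _ => ?_
      rw [if_pos el_one, inv_one, mul_comm (ψ 1)]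
    · intro c _ hc1
      rw [← Finset.mul_sum]
      by_cases hcl : El ℓ c
      · have h2 : ¬ Reg ℓ c⁻¹ := fun h => hc1 (inv_eq_one.1 (el_reg (el_inv hcl) h))
        have h3 := wbo ℓ M hM H b hb.1 x c⁻¹ hx h2
        rw [finsum_mem_eq_finite_toFinset_sum _ (irrE_finite M b), ← hS] at h3
        have h4 : ∑ ψ ∈ S, (if El ℓ c then ψ x⁻¹ * ψ c⁻¹ else 0) = ∑ ψ ∈ S, ψ x⁻¹ * ψ c⁻¹ :=
          Finset.sum_congr rfl fun ψ _ => if_pos hcl
        rw [h4, h3, mul_zero]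
      · have h4 : ∑ ψ ∈ S, (if El ℓ c then ψ x⁻¹ * ψ c⁻¹ else 0) = 0 :=
          Finset.sum_eq_zero fun ψ _ => if_neg hcl
        rw [h4, mul_zero]
  -- the class functions
  obtain ⟨F, hF⟩ : ∃ F : (H → ℂ) → H → integralClosure ℤ ℂ, ∀ ψ ∈ Irr H, ∀ x,
      ((F ψ x : integralClosure ℤ ℂ) : ℂ) = if Reg ℓ x then ψ x⁻¹ else 0 := by
    refine ⟨fun ψ x => if h : ψ ∈ Irr H ∧ Reg ℓ x then ⟨ψ x⁻¹, irr_integral h.1 x⁻¹⟩ else 0, ?_⟩
    intro ψ hψ x
    beta_reduce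
    by_cases hx : Reg ℓ x
    · rw [dif_pos ⟨hψ, hx⟩, if_pos hx]
    · rw [dif_neg (fun h => hx h.2), if_neg hx]
      rfl
  have hFc : ∀ ψ ∈ Irr H, H50.Cl (F ψ) := by
    intro ψ hψ x y
    apply Subtype.ext
    rw [hF ψ hψ, hF ψ hψ]
    have h1 : (y * x * y⁻¹)⁻¹ = y * x⁻¹ * y⁻¹ := by group
    rw [h1, irr_conj hψ]
    simp only [reg_conj]
  obtain ⟨g, hg⟩ : ∃ g : (H → ℂ) → (H → ℂ) → ℂ, g = fun ψ κ =>
      H50.om (fun x => ((F ψ x : integralClosure ℤ ℂ) : ℂ)) κ := ⟨_, rfl⟩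
  have hgr : ∀ ψ ∈ Irr H, ∀ κ ∈ Irr H, κ 1 * g ψ κ = (Fintype.card H : ℂ) * rip ℓ κ ψ := by
    intro ψ hψ κ hκ
    have hκ1 : κ 1 ≠ 0 := by
      obtain ⟨d, hd0, hd⟩ := irr_one hκ
      rw [hd]
      exact_mod_cast hd0.ne'
    rw [hg, rip, ← mul_assoc, Nat.card_eq_fintype_card, mul_inv_cancel₀ hc, one_mul,
      finsum_eq_sum_of_fintype]
    simp only [H50.om]
    rw [mul_div_cancel₀ _ hκ1]
    refine Finset.sum_congr rfl fun x _ => ?_
    rw [hF ψ hψ, finsum_eq_if]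
    by_cases hx : Reg ℓ x
    · rw [if_pos hx, if_pos hx, H94.irr_star hψ, mul_comm]
    · rw [if_neg hx, if_neg hx, zero_mul]
  have hgred : ∀ ψ ∈ Irr H, ∀ κ ∈ Irr H,
      res M (fun t => Ideal.Quotient.mk M (F ψ t)) κ = rr M (g ψ κ) ∧ g ψ κ ∈ RM M := by
    intro ψ hψ κ hκ
    obtain ⟨h1, h2⟩ := H50.res_irr (M := M) (F ψ) (hFc ψ hψ) hκ
    refine ⟨?_, ?_⟩
    · rw [h1, hg, rr_of_int h2]
    · rw [hg]
      exact RM_of_int h2
  -- the sum is one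
  have hone : ∀ κ ∈ IrrE M b, ∑ ψ ∈ S, a ψ * g ψ κ = 1 := by
    intro κ hκ
    have hκ1 : κ 1 ≠ 0 := by
      obtain ⟨d, hd0, hd⟩ := irr_one hκ.1
      rw [hd]
      exact_mod_cast hd0.ne'
    have h1 := eh_chv M b hκ.1
    rw [if_pos hκ] at h1
    apply mul_left_cancel₀ hκ1
    rw [mul_one, Finset.mul_sum]
    have h2 : ∀ ψ ∈ S, κ 1 * (a ψ * g ψ κ) =
        ∑ x : H, if Reg ℓ x then a ψ * (ψ x⁻¹ * κ x) else 0 := by
      intro ψ hψ
      have hψ1 := ((hSm ψ).1 hψ).1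
      rw [mul_left_comm, hgr ψ hψ1 κ hκ.1, rip, ← mul_assoc (Fintype.card H : ℂ),
        Nat.card_eq_fintype_card, mul_inv_cancel₀ hc, one_mul, finsum_eq_sum_of_fintype,
        Finset.mul_sum]
      refine Finset.sum_congr rfl fun x _ => ?_
      rw [finsum_eq_if]
      by_cases hx : Reg ℓ x
      · rw [if_pos hx, if_pos hx, H94.irr_star hψ1, mul_comm (κ x)]
      · rw [if_neg hx, if_neg hx, mul_zero]
    rw [Finset.sum_congr rfl h2, Finset.sum_comm]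
    refine Eq.trans (Finset.sum_congr rfl fun x _ => ?_) h1
    by_cases hx : Reg ℓ x
    · rw [← hval x hx, Finset.sum_mul]
      refine Finset.sum_congr rfl fun ψ _ => ?_
      rw [if_pos hx]
      ring
    · rw [eh_sing wbo ℓ M hM b hb.1 x hx, zero_mul]
      exact Finset.sum_eq_zero fun ψ _ => if_neg hx
  -- the fixed characters
  obtain ⟨κ₁, hκ₁, hκ₂⟩ := H50.exists_irr_res hb.1 hb.2.1
  have hrt := (T3.H23.rtc' ada wbo idm ℓ M hM H N hN.cop hN.reg b hb.1).2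
  obtain ⟨r, -, hper⟩ := hN.per
  have hgeq : ∀ ψ ∈ Irr H, ∀ κ ∈ Irr H, (Nat.card H : ℂ) * rip ℓ κ ψ / κ 1 = g ψ κ := by
    intro ψ hψ κ hκ
    have hκ1 : κ 1 ≠ 0 := by
      obtain ⟨d, hd0, hd⟩ := irr_one hκ
      rw [hd]
      exact_mod_cast hd0.ne'
    rw [Nat.card_eq_fintype_card, ← hgr ψ hψ κ hκ, mul_div_cancel_left₀ _ hκ1]
  obtain ⟨σ, hσ⟩ : ∃ σ : {ψ // ψ ∈ S} → {ψ // ψ ∈ S}, ∀ ψ, (σ ψ).1 = fun h => ψ.1 (h ^ N) :=
    ⟨fun ψ => ⟨fun h => ψ.1 (h ^ N), (hSm _).2 (hrt ψ.1 ((hSm _).1 ψ.2))⟩, fun _ => rfl⟩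
  have hσit : ∀ (n : ℕ) (ψ : {ψ // ψ ∈ S}), (σ^[n] ψ).1 = fun h => ψ.1 (h ^ N ^ n) := by
    intro n
    induction n with
    | zero => intro ψ; funext h; simp
    | succ n ih =>
      intro ψ
      rw [Function.iterate_succ_apply', hσ, ih ψ]
      funext h
      show ψ.1 ((h ^ N) ^ N ^ n) = ψ.1 (h ^ N ^ (n + 1))
      rw [← pow_mul, ← pow_succ']
  have hσr : ∀ ψ : {ψ // ψ ∈ S}, σ^[ℓ ^ r] ψ = ψ := by
    intro ψ
    apply Subtype.ext
    rw [hσit]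
    funext h
    rw [hper]
  have hasig : ∀ ψ : {ψ // ψ ∈ S}, a (σ ψ).1 = a ψ.1 := by
    intro ψ
    rw [ha, hpi]
    beta_reduce
    rw [ipn_eq, ipn_eq, hσ]
    congr 1
    rw [← Function.Bijective.sum_comp (T3.H23.pow_bij hN.cop)
      (fun x => (if El ℓ x then (1 : ℂ) else 0) * starRingEnd ℂ (ψ.1 x))]
    refine Finset.sum_congr rfl fun x _ => ?_
    simp only [el_pow hN.cop]
  have hgsig : ∀ (ψ : {ψ // ψ ∈ S}) (κ : H → ℂ), κ ∈ Irr H → g (σ ψ).1 κ = g ψ.1 κ := by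
    intro ψ κ hκ
    have h1 := ((hSm _).1 (σ ψ).2).1
    have h2 := ((hSm _).1 ψ.2).1
    rw [← hgeq _ h1 κ hκ, ← hgeq _ h2 κ hκ]
    congr 2
    unfold rip
    congr 1
    refine finsum_congr fun s => finsum_congr fun hs => ?_
    rw [hσ]
    show κ s * starRingEnd ℂ (ψ.1 (s ^ N)) = κ s * starRingEnd ℂ (ψ.1 s)
    rw [hN.reg s hs]
  have hℓ0 : ((ℓ : ℕ) : FF M) = 0 := by
    have h1 : ((ℓ : ℕ) : FF M) = Ideal.Quotient.mk M (ℓ : integralClosure ℤ ℂ) := by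
      rw [map_natCast]
    rw [h1]
    exact Ideal.Quotient.eq_zero_iff_mem.2 hM
  have hsum : ∑ ψ : {ψ // ψ ∈ S}, rr M (a ψ.1 * g ψ.1 κ₁) = 1 := by
    have h1 := congrArg (rr M) (hone κ₁ ⟨hκ₁, hκ₂⟩)
    rw [rr_one, rr_sum] at h1
    · rw [← h1]
      exact Finset.sum_coe_sort S (fun ψ => rr M (a ψ * g ψ κ₁))
    · intro ψ hψ
      have hψ1 := ((hSm ψ).1 hψ).1
      exact (RM M).mul_mem (haR ψ hψ1) (hgred ψ hψ1 κ₁ hκ₁).2
  rw [sum_fix hℓ0 σ hσr (fun ψ => rr M (a ψ.1 * g ψ.1 κ₁)) (fun ψ => by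
    rw [hasig ψ, hgsig ψ κ₁ hκ₁])] at hsum
  -- the choice of the character
  have hex : ∃ ψ : {ψ // ψ ∈ S}, σ ψ = ψ ∧
      res M (fun t => Ideal.Quotient.mk M (F ψ.1 t)) κ₁ ≠ 0 := by
    by_contra hcon
    push Not at hcon
    apply zero_ne_one (α := FF M)
    rw [← hsum]
    symm
    refine Finset.sum_eq_zero fun ψ hψ => ?_
    have hψ1 := ((hSm ψ.1).1 ψ.2).1
    obtain ⟨h3, h4⟩ := hgred ψ.1 hψ1 κ₁ hκ₁
    have hψ2 : σ ψ = ψ := by simpa using hψ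
    rw [rr_mul (haR ψ.1 hψ1) h4, ← h3, hcon ψ hψ2, mul_zero]
  obtain ⟨ψ, hfix, hne⟩ := hex
  have hψE := (hSm ψ.1).1 ψ.2
  refine ⟨ψ.1, ⟨hψE, fun h => ?_⟩, fun κ hκ => ?_⟩
  · have h1 := congrFun (congrArg Subtype.val hfix) h
    rw [hσ] at h1
    exact h1
  · rw [hgeq ψ.1 hψE.1 κ hκ.1]
    refine ⟨(hgred ψ.1 hψE.1 κ hκ.1).2, ?_⟩
    rw [← (hgred ψ.1 hψE.1 κ hκ.1).1]
    have hcl : IsCl (fun t => (Ideal.Quotient.mk M (F ψ.1 t) : FF M)) := by
      intro x y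
      exact congrArg (Ideal.Quotient.mk M) (hFc ψ.1 hψE.1 x y)
    have h1 := H50.char_uniq hb (H50.isChar_res hκ₁) (H50.isChar_res hκ.1) hκ₂ hκ.2 hcl
    intro h0
    apply hne
    rw [h1]
    exact h0

end Pool.Agent.PP.TB.H90
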